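import Mathlib
import Pool.Agent.X1.TwoPointer

/-!
# The sign pattern of a perturbed Hofstadter sequence is not eventually 4-regular
-/

namespace Pool.Agent.Results.MP_f18a8d_nt.SignsNotRegular

open Pool.Agent.X1.TwoPointer

/-- The defining conditions of the perturbed Hofstadter sequence (a function on `n ≥ 1`, extended
arbitrarily to the other integers): `Q(1) = Q(2) = 1` and, for `n ≥ 3`,
`Q(n) = Q(n - Q(n-1)) + Q(n - Q(n-2)) + (-1)^n`. -/
structure IsQ (Q : ℤ → ℤ) : Prop where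
  one : Q 1 = 1
  two : Q 2 = 1
  step : ∀ n : ℤ, 3 ≤ n → Q n = Q (n - Q (n - 1)) + Q (n - Q (n - 2)) + (-1) ^ n.toNat

/-- The sequence `s(n) = sign(Q(n+1) - Q(n))`. -/
def signSeq (Q : ℤ → ℤ) (n : ℕ) : ℤ := (Q (n + 1) - Q n).sign

/-- The `k`-kernel of an integer sequence. -/
def kernel (k : ℕ) (a : ℕ → ℤ) : Set (ℕ → ℤ) :=
  {b | ∃ e c : ℕ, c < k ^ e ∧ b = fun n => a (k ^ e * n + c)}

/-- `a` is `k`-regular: the `ℤ`-module generated by its `k`-kernel is finitely generated. -/
def IsRegular (k : ℕ) (a : ℕ → ℤ) : Prop := (Submodule.span ℤ (kernel k a)).FG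

/-- The weak form of the recurrence. -/
structure WQ (Q : ℤ → ℤ) : Prop where
  one : Q 1 = 1
  two : Q 2 = 1
  step : ∀ n : ℤ, 3 ≤ n → 1 ≤ Q (n - 1) → 1 ≤ Q (n - 2) →
    Q n = Q (n - Q (n - 1)) + Q (n - Q (n - 2)) + (-1) ^ n.toNat

/-- `A(m) = a`, with `1 ≤ a ≤ m`. -/
def GA (Q : ℤ → ℤ) (m a : ℤ) : Prop := Q (2 * m - 1) = 2 * a - 1 ∧ 1 ≤ a ∧ a ≤ m

/-- `B(m) = b`, with `1 ≤ b ≤ m`. -/
def GB (Q : ℤ → ℤ) (m b : ℤ) : Prop := Q (2 * m) = 2 * b - 1 ∧ 1 ≤ b ∧ b ≤ m

lemma recA {Q : ℤ → ℤ} (hQ : WQ Q) {m a b b1 b2 : ℤ} (hm : 2 ≤ m) (ha : GA Q (m - 1) a)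
    (hb : GB Q (m - 1) b) (h1 : GB Q (m - b) b1) (h2 : GB Q (m - a) b2) :
    Q (2 * m - 1) = 2 * (b1 + b2 - 1) - 1 := by
  obtain ⟨ha1, ha2, ha3⟩ := ha
  obtain ⟨hb1, hb2, hb3⟩ := hb
  rw [show 2 * (m - 1) - 1 = 2 * m - 1 - 2 by ring] at ha1
  rw [show 2 * (m - 1) = 2 * m - 1 - 1 by ring] at hb1
  have h := hQ.step (2 * m - 1) (by omega) (by rw [hb1]; omega) (by rw [ha1]; omega)
  rw [hb1, ha1] at h
  have e1 : (2 * m - 1).toNat = 2 * (m - 1).toNat + 1 := by omega
  rw [e1, pow_succ, pow_mul, show 2 * m - 1 - (2 * b - 1) = 2 * (m - b) by ring,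
    show 2 * m - 1 - (2 * a - 1) = 2 * (m - a) by ring, h1.1, h2.1] at h
  rw [h]
  norm_num
  ring

lemma recB {Q : ℤ → ℤ} (hQ : WQ Q) {m a b a1 a2 : ℤ} (hm : 2 ≤ m) (ha : GA Q m a)
    (hb : GB Q (m - 1) b) (h1 : GA Q (m + 1 - a) a1) (h2 : GA Q (m + 1 - b) a2) :
    Q (2 * m) = 2 * (a1 + a2) - 1 := by
  obtain ⟨ha1, ha2, ha3⟩ := ha
  obtain ⟨hb1, hb2, hb3⟩ := hb
  rw [show 2 * (m - 1) = 2 * m - 2 by ring] at hb1
  have h := hQ.step (2 * m) (by omega) (by rw [ha1]; omega) (by rw [hb1]; omega)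
  rw [hb1, ha1] at h
  have e1 : (2 * m).toNat = 2 * m.toNat := by omega
  rw [e1, pow_mul, show 2 * m - (2 * b - 1) = 2 * (m + 1 - b) - 1 by ring,
    show 2 * m - (2 * a - 1) = 2 * (m + 1 - a) - 1 by ring, h1.1, h2.1] at h
  rw [h]
  norm_num
  ring

lemma type1 {Q : ℤ → ℤ} (hQ : WQ Q) {n : ℕ} {z : ℕ → ℕ} (hz : Zw n z) (hn2 : 2 ≤ n) {u b0 : ℤ}
    (hb0 : 2 * b0 - 1 = n) (hu : (n : ℤ) ≤ u)
    (hB : ∀ k : ℕ, k + 1 ≤ n → GB Q (u + 1 - n + k) (b0 + z k))
    (hA : ∀ k : ℕ, k + 2 ≤ n → GA Q (u + 2 - n + k) (b0 + k - z k))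
    (hA0 : GA Q u n) (hB0 : GB Q u n) :
    ∀ t : ℕ, t ≤ 2 * n → GA Q (u + t) (n + mach z t) ∧ GB Q (u + t) (n + t - mach z t) := by
  have hlast := hz.last
  have hz1 : z (n - 1) + 1 = z n := by
    have h1 := hz.slow (n - 1) (by omega)
    have h2 := hz.low (n - 1) (by omega)
    rw [show n - 1 + 1 = n by omega] at h1
    omega
  intro t
  induction t using Nat.strong_induction_on with
  | _ t ih =>
    intro ht
    match t with
    | 0 =>
      simp only [mach, Nat.cast_zero, add_zero, sub_zero]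
      exact ⟨hA0, hB0⟩
    | t + 1 =>
      obtain ⟨iA, iB⟩ := ih t (by omega) (by omega)
      obtain ⟨m1, m2, m3, m4, m5, m6⟩ := mach_second hz (t := t) (by omega)
      have hrec : mach z (t + 1) = z (mach z t) + z (t - mach z t) := rfl
      have h1z : mach z 1 = 0 := by simp [mach, hz.zero]
      -- B values
      have gB : ∀ k : ℕ, k ≤ n → (k = n → 1 ≤ t) → GB Q (u + 1 - n + k) (b0 + z k) := by
        intro k hk hkt
        rcases hk.lt_or_eq with h | h
        · exact hB k (by omega)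
        · have h3 := (ih 1 (by have := hkt h; omega) (by omega)).2
          rw [h1z] at h3
          subst h
          have e1 : u + 1 - (k : ℤ) + k = u + ((1 : ℕ) : ℤ) := by push_cast; ring
          have e2 : b0 + (z k : ℤ) = (k : ℤ) + ((1 : ℕ) : ℤ) - ((0 : ℕ) : ℤ) := by
            have : (2 * z k : ℤ) = k + 1 := by exact_mod_cast hlast
            push_cast
            linarith
          rw [e1, e2]
          exact h3
      have gA : ∀ k : ℕ, k + 1 ≤ n → (k + 1 = n → 1 ≤ t) →
          GA Q (u + 2 - n + k) (b0 + k - z k) := by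
        intro k hk hkt
        rcases hk.lt_or_eq with h | h
        · exact hA k (by omega)
        · have h3 := (ih 1 (by have := hkt h; omega) (by omega)).1
          rw [h1z] at h3
          subst h
          have e1 : u + 2 - ((k + 1 : ℕ) : ℤ) + k = u + ((1 : ℕ) : ℤ) := by push_cast; ring
          have e2 : b0 + (k : ℤ) - z k = ((k + 1 : ℕ) : ℤ) + ((0 : ℕ) : ℤ) := by
            have h4 : z k + 1 = z (k + 1) := by simpa using hz1
            have h5 : (2 * (z k + 1) : ℤ) = (k + 1) + 1 := by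
              rw [h4.symm] at hlast
              exact_mod_cast hlast
            push_cast at hb0 ⊢
            linarith
          rw [e1, e2]
          exact h3
      have hq : ((t - mach z t : ℕ) : ℤ) = t - mach z t := Nat.cast_sub m5
      have hk1 : ((t - mach z (t + 1) : ℕ) : ℤ) = t - mach z (t + 1) := Nat.cast_sub m1
      have q1 : Q (2 * (u + (t + 1 : ℕ)) - 1) = 2 * ((n : ℤ) + mach z (t + 1)) - 1 := by
        have hb1 := gB (mach z t) (by omega) (by omega)
        have hb2 := gB (t - mach z t) m4 (by omega)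
        have := recA hQ (m := u + (t + 1 : ℕ)) (by push_cast; omega)
          (by rw [show u + ((t + 1 : ℕ) : ℤ) - 1 = u + t by push_cast; ring]; exact iA)
          (by rw [show u + ((t + 1 : ℕ) : ℤ) - 1 = u + t by push_cast; ring]; exact iB)
          (b1 := b0 + z (mach z t)) (b2 := b0 + z (t - mach z t))
          (by rw [show u + ((t + 1 : ℕ) : ℤ) - ((n : ℤ) + t - mach z t)
                = u + 1 - n + (mach z t : ℕ) by push_cast; ring]; exact hb1)
          (by rw [show u + ((t + 1 : ℕ) : ℤ) - ((n : ℤ) + mach z t)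
                = u + 1 - n + ((t - mach z t : ℕ) : ℤ) by rw [hq]; push_cast; ring]; exact hb2)
        rw [this, hrec]
        push_cast
        linarith
      have gAm : GA Q (u + (t + 1 : ℕ)) (n + mach z (t + 1)) := by
        refine ⟨q1, by omega, ?_⟩
        push_cast
        omega
      refine ⟨gAm, ?_⟩
      have q2 : Q (2 * (u + (t + 1 : ℕ))) = 2 * ((n : ℤ) + (t + 1 : ℕ) - mach z (t + 1)) - 1 := by
        have ha1 := gA (t - mach z (t + 1)) m2 (by omega)
        have ha2 := gA (mach z t) m3 (by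
          intro h
          have := (inv hz t (by omega)).i2
          rcases Nat.eq_zero_or_pos t with h0 | h0
          · subst h0
            simp only [mach] at h
            omega
          · exact h0)
        have := recB hQ (m := u + (t + 1 : ℕ)) (by push_cast; omega) gAm
          (by rw [show u + ((t + 1 : ℕ) : ℤ) - 1 = u + t by push_cast; ring]; exact iB)
          (a1 := b0 + (t - mach z (t + 1) : ℕ) - z (t - mach z (t + 1)))
          (a2 := b0 + mach z t - z (mach z t))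
          (by rw [show u + ((t + 1 : ℕ) : ℤ) + 1 - ((n : ℤ) + mach z (t + 1))
                = u + 2 - n + ((t - mach z (t + 1) : ℕ) : ℤ) by rw [hk1]; push_cast; ring]
              exact ha1)
          (by rw [show u + ((t + 1 : ℕ) : ℤ) + 1 - ((n : ℤ) + t - mach z t)
                = u + 2 - n + (mach z t : ℕ) by push_cast; ring]; exact ha2)
        have hm6 : (z (t - mach z (t + 1)) : ℤ) + z (mach z t) = mach z t := by exact_mod_cast m6
        rw [this, hk1]
        push_cast
        linarith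
      refine ⟨q2, ?_, ?_⟩
      · push_cast
        omega
      · push_cast
        omega

lemma type2 {Q : ℤ → ℤ} (hQ : WQ Q) {n : ℕ} {z : ℕ → ℕ} (hz : Zw n z) {u a : ℤ}
    (ha : 2 * a - 1 = n) (hu : 1 ≤ u)
    (hA : ∀ k : ℕ, k ≤ n → GA Q (u + 1 + k) (a + z k))
    (hB : ∀ k : ℕ, k ≤ n → GB Q (u + 1 + k) (a + 1 + k - z k)) :
    ∀ t : ℕ, t ≤ 2 * n → GB Q (u + n + t) (2 * a + mach z t) ∧
      GA Q (u + n + 1 + t) (2 * a + t - mach z t) := by
  have hlast := hz.last
  have hpos := hz.pos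
  have hz1 : z (n - 1) + 1 = z n := by
    have h1 := hz.slow (n - 1) (by omega)
    have h2 := hz.low (n - 1) (by omega)
    rw [show n - 1 + 1 = n by omega] at h1
    omega
  intro t
  induction t with
  | zero =>
    intro _
    simp only [mach, Nat.cast_zero, add_zero, sub_zero]
    constructor
    · have h1 := hB (n - 1) (by omega)
      have e1 : u + 1 + ((n - 1 : ℕ) : ℤ) = u + n := by
        rw [Nat.cast_sub hpos]; push_cast; ring
      have e2 : a + 1 + ((n - 1 : ℕ) : ℤ) - z (n - 1) = 2 * a := by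
        rw [Nat.cast_sub hpos]
        have h3 : (2 * (z (n - 1) + 1) : ℤ) = n + 1 := by
          rw [← hz1] at hlast
          exact_mod_cast hlast
        push_cast
        linarith
      rw [e1, e2] at h1
      exact h1
    · have h1 := hA n le_rfl
      have e1 : u + 1 + (n : ℤ) = u + n + 1 := by ring
      have e2 : a + (z n : ℤ) = 2 * a := by
        have h3 : (2 * z n : ℤ) = n + 1 := by exact_mod_cast hlast
        linarith
      rw [e1, e2] at h1
      exact h1
  | succ t ih =>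
    intro ht
    obtain ⟨iB, iA⟩ := ih (by omega)
    obtain ⟨m1, m2, m3, m4, m5, m6⟩ := mach_second hz (t := t) (by omega)
    have hrec : mach z (t + 1) = z (mach z t) + z (t - mach z t) := rfl
    have hq : ((t - mach z t : ℕ) : ℤ) = t - mach z t := Nat.cast_sub m5
    have hk1 : ((t - mach z (t + 1) : ℕ) : ℤ) = t - mach z (t + 1) := Nat.cast_sub m1
    have hm : u + n + ((t + 1 : ℕ) : ℤ) = u + n + 1 + t := by push_cast; ring
    have q1 : Q (2 * (u + n + 1 + t)) = 2 * (2 * a + mach z (t + 1)) - 1 := by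
      have := recB hQ (m := u + n + 1 + t) (by omega) iA
        (b := 2 * a + mach z t)
        (by rw [show u + n + 1 + (t : ℤ) - 1 = u + n + t by ring]; exact iB)
        (a1 := a + z (mach z t)) (a2 := a + z (t - mach z t))
        (by rw [show u + n + 1 + (t : ℤ) + 1 - (2 * a + t - mach z t)
              = u + 1 + (mach z t : ℕ) by linarith]; exact hA _ (by omega))
        (by rw [show u + n + 1 + (t : ℤ) + 1 - (2 * a + mach z t)
              = u + 1 + ((t - mach z t : ℕ) : ℤ) by rw [hq]; linarith]; exact hA _ m4)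
      rw [this, hrec]
      push_cast
      ring
    have gBm : GB Q (u + n + 1 + t) (2 * a + mach z (t + 1)) := by
      refine ⟨q1, by omega, by omega⟩
    refine ⟨by rw [hm]; exact gBm, ?_⟩
    have hm2 : u + n + 1 + ((t + 1 : ℕ) : ℤ) = u + n + 1 + t + 1 := by push_cast; ring
    rw [hm2]
    have q2 : Q (2 * (u + n + 1 + t + 1) - 1) = 2 * (2 * a + (t + 1 : ℕ) - mach z (t + 1)) - 1 := by
      have := recA hQ (m := u + n + 1 + t + 1) (by omega)
        (by rw [show u + n + 1 + (t : ℤ) + 1 - 1 = u + n + 1 + t by ring]; exact iA)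
        (by rw [show u + n + 1 + (t : ℤ) + 1 - 1 = u + n + 1 + t by ring]; exact gBm)
        (b1 := a + 1 + (t - mach z (t + 1) : ℕ) - z (t - mach z (t + 1)))
        (b2 := a + 1 + mach z t - z (mach z t))
        (by rw [show u + n + 1 + (t : ℤ) + 1 - (2 * a + mach z (t + 1))
              = u + 1 + ((t - mach z (t + 1) : ℕ) : ℤ) by rw [hk1]; linarith]
            exact hB _ (by omega))
        (by rw [show u + n + 1 + (t : ℤ) + 1 - (2 * a + t - mach z t)
              = u + 1 + (mach z t : ℕ) by linarith]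
            exact hB _ (by omega))
      have hm6 : (z (t - mach z (t + 1)) : ℤ) + z (mach z t) = mach z t := by exact_mod_cast m6
      rw [this, hk1]
      push_cast
      linarith
    refine ⟨q2, ?_, ?_⟩
    · push_cast; omega
    · push_cast; omega

/-- `a_r`: `3, 11, 43, …`. -/
def ar : ℕ → ℕ
  | 0 => 3
  | r + 1 => 4 * ar r - 1

lemma ar_ge (r : ℕ) : r + 3 ≤ ar r := by
  induction r with
  | zero => simp [ar]
  | succ r ih => simp only [ar]; omega

/-- `u_r = 2 a_r - r - 2`. -/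
def ur (r : ℕ) : ℤ := 2 * ar r - r - 2

/-- The state after the interval `[u_r, v_r]`. -/
def Gen (Q : ℤ → ℤ) (r : ℕ) : Prop :=
  (∀ m : ℤ, 1 ≤ m → m ≤ ur r + 2 * ar r → ∃ a b, GA Q m a ∧ GB Q m b) ∧
  ∃ p, Path (ar r) p ∧ ∀ t : ℕ, t ≤ 2 * ar r →
    GA Q (ur r + t) (ar r + p t) ∧ GB Q (ur r + t) (ar r + t - p t)

lemma gen_zero {Q : ℤ → ℤ} (hQ : WQ Q) : Gen Q 0 := by
  have q1 := hQ.one
  have q2 := hQ.two
  have q3 : Q 3 = 1 := by
    have := hQ.step 3 (by norm_num) (by norm_num [q2]) (by norm_num [q1])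
    norm_num [q1, q2] at this
    rw [this]
    norm_num [show (3 : ℤ).toNat = 3 from rfl]
  have q4 : Q 4 = 3 := by
    have := hQ.step 4 (by norm_num) (by norm_num [q3]) (by norm_num [q2])
    norm_num [q1, q2, q3] at this
    rw [this]
    norm_num [show (4 : ℤ).toNat = 4 from rfl]
  have q5 : Q 5 = 3 := by
    have := hQ.step 5 (by norm_num) (by norm_num [q4]) (by norm_num [q3])
    norm_num [q1, q2, q3, q4] at this
    rw [this]
    norm_num [show (5 : ℤ).toNat = 5 from rfl]
  have q6 : Q 6 = 3 := by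
    have := hQ.step 6 (by norm_num) (by norm_num [q5]) (by norm_num [q4])
    norm_num [q1, q2, q3, q4, q5] at this
    rw [this]
    norm_num [show (6 : ℤ).toNat = 6 from rfl]
  have q7 : Q 7 = 5 := by
    have := hQ.step 7 (by norm_num) (by norm_num [q6]) (by norm_num [q5])
    norm_num [q1, q2, q3, q4, q5, q6] at this
    rw [this]
    norm_num [show (7 : ℤ).toNat = 7 from rfl]
  have q8 : Q 8 = 5 := by
    have := hQ.step 8 (by norm_num) (by norm_num [q7]) (by norm_num [q6])
    norm_num [q1, q2, q3, q4, q5, q6, q7] at this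
    rw [this]
    norm_num [show (8 : ℤ).toNat = 8 from rfl]
  have gA1 : GA Q 1 1 := ⟨by norm_num [q1], by norm_num, by norm_num⟩
  have gB1 : GB Q 1 1 := ⟨by norm_num [q2], by norm_num, by norm_num⟩
  have gA2 : GA Q 2 1 := ⟨by norm_num [q3], by norm_num, by norm_num⟩
  have gB2 : GB Q 2 2 := ⟨by norm_num [q4], by norm_num, by norm_num⟩
  have gA3 : GA Q 3 2 := ⟨by norm_num [q5], by norm_num, by norm_num⟩
  have gB3 : GB Q 3 2 := ⟨by norm_num [q6], by norm_num, by norm_num⟩
  have gA4 : GA Q 4 3 := ⟨by norm_num [q7], by norm_num, by norm_num⟩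
  have gB4 : GB Q 4 3 := ⟨by norm_num [q8], by norm_num, by norm_num⟩
  have hz : Zw 3 (fun k => k - 1) := by
    refine ⟨by norm_num, rfl, ?_, ?_, rfl⟩
    · intro k hk
      interval_cases k <;> simp
    · intro k hk
      interval_cases k <;> simp
  have hmain := type1 hQ hz (by norm_num) (u := 4) (b0 := 2) (by norm_num) (by norm_num)
    (by
      intro k hk
      have : k ≤ 2 := by omega
      interval_cases k
      · norm_num; exact gB2
      · norm_num; exact gB3
      · norm_num; exact gB4)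
    (by
      intro k hk
      have : k ≤ 1 := by omega
      interval_cases k
      · norm_num; exact gA3
      · norm_num; exact gA4)
    (by norm_num; exact gA4) (by norm_num; exact gB4)
  have har : ar 0 = 3 := rfl
  have hur : ur 0 = 4 := by unfold ur; rw [har]; norm_num
  refine ⟨?_, mach (fun k => k - 1), ?_, ?_⟩
  · intro m h1 h2
    rw [hur, har] at h2
    norm_num at h2
    rcases lt_or_ge m 4 with h | h
    · have : m = 1 ∨ m = 2 ∨ m = 3 := by omega
      rcases this with rfl | rfl | rfl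
      · exact ⟨_, _, gA1, gB1⟩
      · exact ⟨_, _, gA2, gB2⟩
      · exact ⟨_, _, gA3, gB3⟩
    · obtain ⟨t, rfl⟩ : ∃ t : ℕ, m = 4 + t := ⟨(m - 4).toNat, by omega⟩
      have := hmain t (by omega)
      exact ⟨_, _, this.1, this.2⟩
  · rw [har]
    exact mach_path hz
  · intro t ht
    rw [hur, har]
    exact hmain t (by rw [har] at ht; exact ht)

lemma gen_succ {Q : ℤ → ℤ} (hQ : WQ Q) {r : ℕ} (h : Gen Q r) : Gen Q (r + 1) := by
  obtain ⟨hall, p, hp, hpt⟩ := h
  have hge := ar_ge r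
  set a := ar r with ha
  set u := ur r with hu
  have hu1 : 1 ≤ u := by rw [hu]; unfold ur; omega
  -- type 2
  set n2 := 2 * a - 1 with hn2
  have hz2 : Zw n2 (fun k => p (k + 1)) := by
    refine ⟨by omega, ?_, ?_, ?_, ?_⟩
    · have := hp.low 1 (by norm_num) (by omega)
      simp only [zero_add]
      omega
    · intro k hk
      exact hp.slow (k + 1) (by omega)
    · intro k hk
      have := hp.low (k + 1) (by omega) (by omega)
      omega
    · rw [show n2 + 1 = 2 * a by omega, hp.last]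
  have hcast : ((n2 : ℕ) : ℤ) = 2 * a - 1 := by omega
  have ht2 := type2 hQ hz2 (u := u) (a := a) (by rw [hcast]) hu1
    (by
      intro k hk
      have := (hpt (k + 1) (by omega)).1
      rw [show u + 1 + (k : ℤ) = u + ((k + 1 : ℕ) : ℤ) by push_cast; ring]
      exact this)
    (by
      intro k hk
      have := (hpt (k + 1) (by omega)).2
      rw [show u + 1 + (k : ℤ) = u + ((k + 1 : ℕ) : ℤ) by push_cast; ring,
        show (a : ℤ) + 1 + k - (p (k + 1) : ℕ) = a + ((k + 1 : ℕ) : ℤ) - p (k + 1) by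
          push_cast; ring]
      exact this)
  have hp2 := mach_path hz2
  set p2 := mach (fun k => p (k + 1)) with hp2def
  -- type 1 of the next generation
  set n1 := 4 * a - 1 with hn1
  have har : ar (r + 1) = n1 := rfl
  have hn12 : n1 = 2 * n2 + 1 := by omega
  have hur : ur (r + 1) = u + 6 * a - 3 := by
    rw [hu]
    unfold ur
    rw [har, ← ha]
    push_cast
    omega
  have hz1 : Zw n1 (fun k => if k ≤ 2 * n2 then p2 k else 2 * a) := by
    refine ⟨by omega, ?_, ?_, ?_, ?_⟩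
    · simp only [zero_le, if_true]
      exact hp2.zero
    · intro k hk
      rw [if_pos (show k ≤ 2 * n2 by omega)]
      split_ifs with h1
      · exact hp2.slow k (by omega)
      · have : k = 2 * n2 := by omega
        rw [this, hp2.last]
        omega
    · intro k hk
      rw [if_pos (show k ≤ 2 * n2 by omega)]
      rcases Nat.eq_zero_or_pos k with h0 | h0
      · subst h0; rw [hp2.zero]
      · rcases lt_or_ge k (2 * n2) with h1 | h1
        · have := hp2.low k h0 h1; omega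
        · have : k = 2 * n2 := by omega
          rw [this, hp2.last]
    · rw [if_neg (by omega)]
      omega
  have hcast1 : ((n1 : ℕ) : ℤ) = 4 * a - 1 := by omega
  have hpl : p2 (2 * n2 - 1) = n2 - 1 := by
    have h1 := hp2.low (2 * n2 - 1) (by omega) (by omega)
    have h2 := hp2.slow (2 * n2 - 1) (by omega)
    rw [show 2 * n2 - 1 + 1 = 2 * n2 by omega, hp2.last] at h2
    omega
  have hmain := type1 hQ hz1 (by omega) (u := ur (r + 1)) (b0 := 2 * a) (by rw [hcast1]; ring)
    (by rw [hur, hcast1]; omega)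
    (by
      intro k hk
      have := (ht2 k (by omega)).1
      rw [if_pos (by omega)]
      rw [show ur (r + 1) + 1 - (n1 : ℤ) + k = u + n2 + k by rw [hur, hcast1, hcast]; ring]
      exact this)
    (by
      intro k hk
      have := (ht2 k (by omega)).2
      rw [if_pos (by omega)]
      rw [show ur (r + 1) + 2 - (n1 : ℤ) + k = u + n2 + 1 + k by rw [hur, hcast1, hcast]; ring]
      exact this)
    (by
      have := (ht2 (2 * n2 - 1) (by omega)).2
      rw [hpl] at this
      rw [show ur (r + 1) = u + n2 + 1 + ((2 * n2 - 1 : ℕ) : ℤ) by rw [hur]; omega,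
        show ((n1 : ℕ) : ℤ) = 2 * (a : ℤ) + ((2 * n2 - 1 : ℕ) : ℤ) - ((n2 - 1 : ℕ) : ℤ) by omega]
      exact this)
    (by
      have := (ht2 (2 * n2) le_rfl).1
      rw [hp2.last] at this
      rw [show ur (r + 1) = u + n2 + ((2 * n2 : ℕ) : ℤ) by rw [hur]; omega,
        show ((n1 : ℕ) : ℤ) = 2 * (a : ℤ) + ((n2 : ℕ) : ℤ) by omega]
      exact this)
  refine ⟨?_, _, by rw [har]; exact mach_path hz1, ?_⟩
  · intro m h1 h2
    rw [har] at h2
    rcases le_or_gt m (u + 2 * a) with h | h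
    · exact hall m h1 h
    · rcases lt_or_ge m (ur (r + 1)) with h3 | h3
      · obtain ⟨t, ht⟩ : ∃ t : ℕ, m = u + n2 + 1 + t := ⟨(m - (u + n2 + 1)).toNat, by omega⟩
        have e1 : t + 1 ≤ 2 * n2 := by omega
        have h4 := (ht2 t (by omega)).2
        have h5 := (ht2 (t + 1) e1).1
        rw [← ht] at h4
        rw [show u + n2 + ((t + 1 : ℕ) : ℤ) = m by rw [ht]; push_cast; ring] at h5
        exact ⟨_, _, h4, h5⟩
      · obtain ⟨t, ht⟩ : ∃ t : ℕ, m = ur (r + 1) + t := ⟨(m - ur (r + 1)).toNat, by omega⟩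
        have := hmain t (by omega)
        rw [ht]
        exact ⟨_, _, this.1, this.2⟩
  · intro t ht
    rw [har] at ht ⊢
    exact hmain t ht

lemma gen {Q : ℤ → ℤ} (hQ : WQ Q) (r : ℕ) : Gen Q r := by
  induction r with
  | zero => exact gen_zero hQ
  | succ r ih => exact gen_succ hQ ih

lemma pos_of_WQ {Q : ℤ → ℤ} (hQ : WQ Q) {n : ℤ} (hn : 1 ≤ n) : 1 ≤ Q n := by
  obtain ⟨m, hm⟩ : ∃ m : ℤ, n = 2 * m - 1 ∨ n = 2 * m := by
    rcases Int.even_or_odd n with h | h
    · obtain ⟨k, hk⟩ := h; exact ⟨k, Or.inr (by omega)⟩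
    · obtain ⟨k, hk⟩ := h; exact ⟨k + 1, Or.inl (by omega)⟩
  have hm1 : 1 ≤ m := by omega
  have hge := ar_ge m.toNat
  obtain ⟨a, b, ha, hb⟩ := (gen hQ m.toNat).1 m hm1 (by unfold ur; omega)
  rcases hm with rfl | rfl
  · rw [ha.1]; have := ha.2.1; omega
  · rw [hb.1]; have := hb.2.1; omega

/-- `v_r = 4 a_r - r - 2`. -/
def vr (r : ℕ) : ℤ := 4 * ar r - r - 2

lemma diff_zero {Q : ℤ → ℤ} (hQ : WQ Q) (r : ℕ) : Q (2 * vr r) - Q (2 * vr r - 1) = 0 := by
  obtain ⟨_, p, hp, hpt⟩ := gen hQ r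
  obtain ⟨h1, h2⟩ := hpt (2 * ar r) le_rfl
  rw [hp.last] at h1 h2
  have e : ur r + ((2 * ar r : ℕ) : ℤ) = vr r := by unfold ur vr; push_cast; ring
  rw [e] at h1 h2
  rw [h1.1, h2.1]
  push_cast
  ring

lemma diff_pos {Q : ℤ → ℤ} (hQ : WQ Q) {r j : ℕ} (h1 : 1 ≤ j) (h2 : j < 2 * ar r) :
    0 < Q (2 * (vr r - j)) - Q (2 * (vr r - j) - 1) := by
  obtain ⟨_, p, hp, hpt⟩ := gen hQ r
  obtain ⟨h3, h4⟩ := hpt (2 * ar r - j) (by omega)
  have h5 := hp.low (2 * ar r - j) (by omega) (by omega)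
  have e : ur r + ((2 * ar r - j : ℕ) : ℤ) = vr r - j := by
    unfold ur vr; omega
  rw [e] at h3 h4
  rw [h3.1, h4.1]
  omega

/-! ### The rank argument -/

/-- `(4^k - 1)/3`. -/
def jj : ℕ → ℕ
  | 0 => 0
  | k + 1 => 4 * jj k + 1

lemma jj_succ (k : ℕ) : jj (k + 1) = 4 * jj k + 1 := rfl

lemma jj_add (e k : ℕ) : jj (e + k) = 4 ^ e * jj k + jj e := by
  induction e with
  | zero => simp [jj]
  | succ e ih =>
    rw [show e + 1 + k = (e + k) + 1 by ring]
    simp only [jj]
    rw [ih, pow_succ]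
    ring

lemma jj_lt (k : ℕ) : jj k < 4 ^ k := by
  induction k with
  | zero => simp [jj]
  | succ k ih => simp only [jj]; rw [pow_succ]; omega

lemma jj_ge (k : ℕ) : 4 * (k + 3) + 4 ≤ jj (k + 3) := by
  induction k with
  | zero => simp [jj]
  | succ k ih => rw [show k + 1 + 3 = (k + 3) + 1 by ring, jj_succ]; omega

lemma ar_jj (r : ℕ) : 8 * ar r = jj (r + 3) + 3 := by
  induction r with
  | zero => simp [ar, jj]
  | succ r ih =>
    have := ar_ge r
    rw [show r + 1 + 3 = (r + 3) + 1 by ring, jj_succ]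
    simp only [ar]
    omega

theorem not_eventually_regular {Q : ℤ → ℤ} (hQ : WQ Q) :
    ¬ ∃ t : ℕ → ℤ, IsRegular 4 t ∧ ∃ n0 : ℕ, ∀ n, n0 ≤ n → signSeq Q n = t n := by
  rintro ⟨t, hreg, n0, hn0⟩
  unfold IsRegular at hreg
  set K := Submodule.span ℤ (kernel 4 t) with hK
  have : Module.Finite ℤ K := Module.Finite.iff_fg.2 hreg
  set d := Module.finrank ℤ K with hd
  set R := n0 + 2 * (d + 1) + 3 with hR
  -- the kernel elements
  have hjR : 4 * R + 4 ≤ jj R := by
    have := jj_ge (n0 + 2 * (d + 1))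
    rw [← hR] at this
    omega
  have hjR2 := jj_lt R
  have hmem : ∀ i : ℕ, i ≤ d + 1 → (fun n => t (4 ^ R * n + (jj R - 2 * (R + i) - 2))) ∈ K :=
    fun i hi => Submodule.subset_span ⟨R, jj R - 2 * (R + i) - 2, by omega, rfl⟩
  -- values
  have hval : ∀ i i' : ℕ, i ≤ d + 1 → i' ≤ d + 1 → i' ≤ i →
      t (4 ^ R * jj (i' + 3) + (jj R - 2 * (R + i) - 2)) = if i' = i then 0 else 1 := by
    intro i i' hi hi' hii
    have hjj := jj_add R (i' + 3)
    have har := ar_jj (R + i')
    have hge := ar_ge (R + i')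
    rw [show R + i' + 3 = R + (i' + 3) by ring, hjj] at har
    set N := 4 ^ R * jj (i' + 3) + (jj R - 2 * (R + i) - 2) with hN
    obtain ⟨j, hj⟩ : ∃ j, i = i' + j := ⟨i - i', by omega⟩
    have hNv : (N : ℤ) = 2 * (vr (R + i') - j) - 1 := by
      unfold vr
      omega
    rw [← hn0 N (by omega)]
    unfold signSeq
    rw [hNv, show 2 * (vr (R + i') - (j : ℤ)) - 1 + 1 = 2 * (vr (R + i') - j) by ring]
    split_ifs with h0
    · have : j = 0 := by omega
      subst this
      rw [Nat.cast_zero, sub_zero, diff_zero hQ, Int.sign_zero]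
    · exact Int.sign_eq_one_of_pos (diff_pos hQ (by omega) (by omega))
  let v : Fin (d + 1) → K := fun i =>
    ⟨fun n => t (4 ^ R * n + (jj R - 2 * (R + i) - 2)), hmem i (by have := i.isLt; omega)⟩ -
    ⟨fun n => t (4 ^ R * n + (jj R - 2 * (R + (i + 1)) - 2)),
      hmem (i + 1) (by have := i.isLt; omega)⟩
  have hv : ∀ (i : Fin (d + 1)) (i' : ℕ), i' ≤ i → (v i : ℕ → ℤ) (jj (i' + 3))
      = if i' = i then -1 else 0 := by
    intro i i' hii
    have hi := i.isLt
    have e1 := hval i i' (by omega) (by omega) hii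
    have e2 := hval (i + 1) i' (by omega) (by omega) (by omega)
    simp only [v, Submodule.coe_sub, Pi.sub_apply]
    rw [e1, e2, if_neg (show ¬ i' = (i : ℕ) + 1 by omega)]
    split_ifs <;> norm_num
  have hli : LinearIndependent ℤ v := by
    rw [Fintype.linearIndependent_iff]
    intro μ hμ
    have hsum : ∀ n, ∑ i, μ i * (v i : ℕ → ℤ) n = 0 := by
      intro n
      have h1 := congrArg (fun z : K => (z : ℕ → ℤ) n) hμ
      simpa [Finset.sum_apply] using h1
    have claim : ∀ i' : ℕ, ∀ hi' : i' < d + 1, μ ⟨i', hi'⟩ = 0 := by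
      intro i'
      induction i' using Nat.strong_induction_on with
      | _ i' ih =>
        intro hi'
        have h1 := hsum (jj (i' + 3))
        rw [Finset.sum_eq_single (⟨i', hi'⟩ : Fin (d + 1))] at h1
        · rw [hv ⟨i', hi'⟩ i' le_rfl, if_pos rfl] at h1
          omega
        · intro l _ hl
          rcases lt_or_ge (l : ℕ) i' with h | h
          · have := ih l h l.isLt
            have h0 : μ l = 0 := this
            rw [h0, zero_mul]
          · have hne : ¬ i' = (l : ℕ) := fun h' => hl (Fin.ext h'.symm)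
            rw [hv l i' h, if_neg hne, mul_zero]
        · intro h; exact absurd (Finset.mem_univ _) h
    intro i
    exact claim i i.isLt
  have hcard := hli.fintype_card_le_finrank
  rw [Fintype.card_fin] at hcard
  omega

/-! ### Existence of the sequence -/

/-- Tables of values. -/
def FQ : ℕ → ℤ → ℤ
  | 0 => fun _ => 1
  | k + 1 => fun z =>
      if z = k + 3 then FQ k (z - FQ k (z - 1)) + FQ k (z - FQ k (z - 2)) + (-1) ^ z.toNat
      else FQ k z

lemma FQ_stable_aux {k : ℕ} {z : ℤ} (hz : z ≤ k + 2) : ∀ l : ℕ, FQ (k + l) z = FQ k z := by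
  intro l
  induction l with
  | zero => rfl
  | succ l ih =>
    rw [← ih, show k + (l + 1) = (k + l) + 1 by ring]
    simp only [FQ]
    rw [if_neg (by push_cast; omega)]

lemma FQ_stable {k l : ℕ} {z : ℤ} (hk : z ≤ k + 2) (hl : z ≤ l + 2) : FQ k z = FQ l z := by
  rcases le_total k l with h | h
  · obtain ⟨m, rfl⟩ := Nat.exists_eq_add_of_le h
    rw [FQ_stable_aux hk]
  · obtain ⟨m, rfl⟩ := Nat.exists_eq_add_of_le h
    rw [FQ_stable_aux hl]

/-- The constructed sequence. -/
def QQ (z : ℤ) : ℤ := FQ z.toNat z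

lemma QQ_eq {k : ℕ} {z : ℤ} (hk : z ≤ k + 2) : FQ k z = QQ z :=
  FQ_stable hk (by omega)

lemma QQ_WQ : WQ QQ := by
  refine ⟨?_, ?_, ?_⟩
  · rw [← QQ_eq (k := 0) (by norm_num)]; rfl
  · rw [← QQ_eq (k := 0) (by norm_num)]; rfl
  · intro n hn h1 h2
    obtain ⟨k, hk⟩ : ∃ k : ℕ, n = k + 3 := ⟨(n - 3).toNat, by omega⟩
    have e1 : QQ n = FQ (k + 1) n := (QQ_eq (by push_cast; omega)).symm
    rw [e1]
    simp only [FQ]
    rw [if_pos hk, QQ_eq (z := n - 1) (by omega), QQ_eq (z := n - 2) (by omega),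
      QQ_eq (by omega), QQ_eq (by omega)]

lemma exists_IsQ : ∃ Q : ℤ → ℤ, IsQ Q :=
  ⟨QQ, QQ_WQ.one, QQ_WQ.two, fun n hn =>
    QQ_WQ.step n hn (pos_of_WQ QQ_WQ (by omega)) (pos_of_WQ QQ_WQ (by omega))⟩

/-- **The sign pattern is not eventually `4`-regular.** The perturbed Hofstadter sequence exists,
and for it there is no `4`-regular sequence `t` with `sign(Q(n+1) - Q(n)) = t(n)` for all
sufficiently large `n`. -/
theorem result : (∃ Q : ℤ → ℤ, IsQ Q) ∧ ∀ Q : ℤ → ℤ, IsQ Q →
    ¬ ∃ t : ℕ → ℤ, IsRegular 4 t ∧ ∃ n0 : ℕ, ∀ n, n0 ≤ n → signSeq Q n = t n := by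
  refine ⟨exists_IsQ, fun Q hQ => not_eventually_regular ⟨hQ.one, hQ.two, fun n hn _ _ =>
    hQ.step n hn⟩⟩

end Pool.Agent.Results.MP_f18a8d_nt.SignsNotRegular
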